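import Mathlib

namespace Pool.Agent.Results.MP_2a0e18_al.Full

open scoped TensorProduct
open Coalgebra

/-- Two-sided group-like projection: a nonzero idempotent that is both a right and a left
group-like projection. -/
def TwoSided (k : Type) {A : Type} [Field k] [Ring A] [HopfAlgebra k A] (P : A) : Prop :=
  P ≠ 0 ∧ P * P = P ∧
    (comul (R := k) P * (1 ⊗ₜ[k] P) = P ⊗ₜ[k] P ∧ P ⊗ₜ[k] P = (1 ⊗ₜ[k] P) * comul (R := k) P) ∧
    (comul (R := k) P * (P ⊗ₜ[k] 1) = P ⊗ₜ[k] P ∧ P ⊗ₜ[k] P = (P ⊗ₜ[k] 1) * comul (R := k) P)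

variable (k : Type) [Field k]

inductive Rel : FreeAlgebra k Bool → FreeAlgebra k Bool → Prop
  | hh : Rel (FreeAlgebra.ι k true * FreeAlgebra.ι k true) (FreeAlgebra.ι k true)
  | ee : Rel (FreeAlgebra.ι k false * FreeAlgebra.ι k false) 0
  | eh : Rel (FreeAlgebra.ι k false * FreeAlgebra.ι k true)
      (FreeAlgebra.ι k true * FreeAlgebra.ι k false + FreeAlgebra.ι k false)

abbrev U : Type := RingQuot (Rel k)

noncomputable def h : U k := RingQuot.mkAlgHom k (Rel k) (FreeAlgebra.ι k true)
noncomputable def e : U k := RingQuot.mkAlgHom k (Rel k) (FreeAlgebra.ι k false)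

lemma hh : h k * h k = h k := by
  simpa [h] using RingQuot.mkAlgHom_rel k (Rel.hh (k := k))
lemma ee : e k * e k = 0 := by
  simpa [e] using RingQuot.mkAlgHom_rel k (Rel.ee (k := k))
lemma eh : e k * h k = h k * e k + e k := by
  simpa [e, h] using RingQuot.mkAlgHom_rel k (Rel.eh (k := k))

variable {k}

noncomputable def mkHom {B : Type} [Semiring B] [Algebra k B] (H E : B) (h1 : H * H = H)
    (h2 : E * E = 0) (h3 : E * H = H * E + E) : U k →ₐ[k] B :=
  RingQuot.liftAlgHom k ⟨FreeAlgebra.lift k (fun b => cond b H E), by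
    rintro _ _ (_ | _ | _) <;> simp [h1, h2, h3]⟩

lemma mkHom_h {B : Type} [Semiring B] [Algebra k B] (H E : B) (h1 h2 h3) :
    mkHom (k := k) H E h1 h2 h3 (h k) = H := by
  simp [mkHom, h, RingQuot.liftAlgHom_mkAlgHom_apply]

lemma mkHom_e {B : Type} [Semiring B] [Algebra k B] (H E : B) (h1 h2 h3) :
    mkHom (k := k) H E h1 h2 h3 (e k) = E := by
  simp [mkHom, e, RingQuot.liftAlgHom_mkAlgHom_apply]

lemma hom_ext {B : Type} [Semiring B] [Algebra k B] (f g : U k →ₐ[k] B) (h1 : f (h k) = g (h k))
    (h2 : f (e k) = g (e k)) : f = g := by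
  apply RingQuot.ringQuot_ext'
  apply FreeAlgebra.hom_ext
  funext b
  cases b
  · exact h2
  · exact h1

variable [CharP k 2]

lemma two {M : Type} [AddCommMonoid M] [Module k M] (x : M) : x + x = 0 := by
  rw [← two_smul k x, show (2 : k) = 0 from CharTwo.two_eq_zero, zero_smul]

lemma span_top : Submodule.span k {1, h k, e k, h k * e k} = ⊤ := by
  have key : ∀ x : FreeAlgebra k Bool, ∀ m ∈ Submodule.span k {1, h k, e k, h k * e k},
      RingQuot.mkAlgHom k (Rel k) x * m ∈ Submodule.span k {1, h k, e k, h k * e k} := by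
    have m1 : (1 : U k) ∈ Submodule.span k {1, h k, e k, h k * e k} :=
      Submodule.subset_span (by simp)
    have m2 : h k ∈ Submodule.span k {1, h k, e k, h k * e k} := Submodule.subset_span (by simp)
    have m3 : e k ∈ Submodule.span k {1, h k, e k, h k * e k} := Submodule.subset_span (by simp)
    have m4 : h k * e k ∈ Submodule.span k {1, h k, e k, h k * e k} :=
      Submodule.subset_span (by simp)
    intro x
    induction x using FreeAlgebra.induction with
    | grade0 r => intro m hm; rw [AlgHom.commutes, ← Algebra.smul_def]; exact Submodule.smul_mem _ _ hm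
    | grade1 b =>
      intro m hm
      induction hm using Submodule.span_induction with
      | mem y hy =>
        simp only [Set.mem_insert_iff, Set.mem_singleton_iff] at hy
        cases b
        · change e k * y ∈ _
          rcases hy with rfl | rfl | rfl | rfl
          · rwa [mul_one]
          · rw [eh]; exact add_mem m4 m3
          · rw [ee]; exact zero_mem _
          · rw [← mul_assoc, eh, add_mul, mul_assoc, ee, mul_zero, add_zero]; exact zero_mem _
        · change h k * y ∈ _
          rcases hy with rfl | rfl | rfl | rfl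
          · rwa [mul_one]
          · rwa [hh]
          · exact m4
          · rwa [← mul_assoc, hh]
      | zero => rw [mul_zero]; exact zero_mem _
      | add y z _ _ hy hz => rw [mul_add]; exact add_mem hy hz
      | smul r y _ hy => rw [mul_smul_comm]; exact Submodule.smul_mem _ _ hy
    | mul x y hx hy => intro m hm; rw [map_mul, mul_assoc]; exact hx _ (hy m hm)
    | add x y hx hy => intro m hm; rw [map_add, add_mul]; exact add_mem (hx m hm) (hy m hm)
  rw [eq_top_iff]
  intro x _
  obtain ⟨y, rfl⟩ := RingQuot.mkAlgHom_surjective k (Rel k) x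
  simpa using key y 1 (Submodule.subset_span (by simp))

noncomputable def Δ : U k →ₐ[k] U k ⊗[k] U k :=
  mkHom (h k ⊗ₜ 1 + 1 ⊗ₜ h k) (e k ⊗ₜ 1 + 1 ⊗ₜ e k)
    (by
      simp only [mul_add, add_mul, Algebra.TensorProduct.tmul_mul_tmul, mul_one, one_mul, hh]
      have := two (k := k) (h k ⊗ₜ[k] h k)
      refine Eq.trans (b := h k ⊗ₜ[k] 1 + 1 ⊗ₜ[k] h k + (h k ⊗ₜ[k] h k + h k ⊗ₜ[k] h k))
        (by abel) ?_
      rw [this, add_zero])
    (by
      simp only [mul_add, add_mul, Algebra.TensorProduct.tmul_mul_tmul, mul_one, one_mul, ee,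
        TensorProduct.zero_tmul, TensorProduct.tmul_zero, zero_add, add_zero]
      exact two (k := k) _)
    (by
      simp only [mul_add, add_mul, Algebra.TensorProduct.tmul_mul_tmul, mul_one, one_mul, eh,
        TensorProduct.add_tmul, TensorProduct.tmul_add]
      abel)

noncomputable def ε : U k →ₐ[k] k := mkHom 0 0 (by simp) (by simp) (by simp)

noncomputable def σ : U k →ₐ[k] (U k)ᵐᵒᵖ :=
  mkHom (MulOpposite.op (h k)) (MulOpposite.op (e k))
    (by rw [← MulOpposite.op_mul, hh]) (by rw [← MulOpposite.op_mul, ee]; rfl)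
    (by
      rw [← MulOpposite.op_mul, ← MulOpposite.op_mul, ← MulOpposite.op_add, eh, add_assoc,
        two (k := k), add_zero])

lemma Δh : Δ (h k) = h k ⊗ₜ[k] 1 + 1 ⊗ₜ[k] h k := mkHom_h ..
lemma Δe : Δ (e k) = e k ⊗ₜ[k] 1 + 1 ⊗ₜ[k] e k := mkHom_e ..
lemma εh : ε (h k) = (0 : k) := mkHom_h ..
lemma εe : ε (e k) = (0 : k) := mkHom_e ..

noncomputable def S : U k →ₗ[k] U k :=
  (MulOpposite.opLinearEquiv k).symm.toLinearMap ∘ₗ (σ (k := k)).toLinearMap

lemma S1 : S (1 : U k) = 1 := by simp [S]
lemma Sh : S (h k) = h k := by simp [S, σ, mkHom_h]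
lemma Se : S (e k) = e k := by simp [S, σ, mkHom_e]
lemma She : S (h k * e k) = e k * h k := by simp [S, σ, mkHom_e, mkHom_h]

noncomputable instance : Bialgebra k (U k) :=
  Bialgebra.ofAlgHom Δ ε
    (hom_ext _ _
      (by simp [Δh, TensorProduct.add_tmul, TensorProduct.tmul_add, Algebra.TensorProduct.one_def,
        add_assoc])
      (by simp [Δe, TensorProduct.add_tmul, TensorProduct.tmul_add, Algebra.TensorProduct.one_def,
        add_assoc]))
    (hom_ext _ _ (by simp [Δh, εh]) (by simp [Δe, εe]))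
    (hom_ext _ _ (by simp [Δh, εh]) (by simp [Δe, εe]))

lemma comul_eq (x : U k) : comul (R := k) x = Δ x := rfl
lemma counit_eq (x : U k) : counit (R := k) x = ε x := rfl

noncomputable instance : HopfAlgebra k (U k) where
  antipode := S
  mul_antipode_rTensor_comul := by
    refine LinearMap.ext_on span_top ?_
    intro x hx
    simp only [Set.mem_insert_iff, Set.mem_singleton_iff] at hx
    rcases hx with rfl | rfl | rfl | rfl
    · simp [Algebra.TensorProduct.one_def, S1]
    · simp [comul_eq, counit_eq, Δh, εh, S1, Sh, two (k := k)]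
    · simp [comul_eq, counit_eq, Δe, εe, S1, Se, two (k := k)]
    · simp only [LinearMap.comp_apply, comul_eq, counit_eq, map_mul, Δh, Δe, εh, εe, mul_add,
        add_mul, Algebra.TensorProduct.tmul_mul_tmul, mul_one, one_mul, map_add,
        LinearMap.rTensor_tmul, LinearMap.mul'_apply, S1, Sh, Se, She, mul_zero, map_zero]
      have a1 := two (k := k) (h k * e k)
      have a2 := two (k := k) (e k * h k)
      refine Eq.trans (b := (h k * e k + h k * e k) + (e k * h k + e k * h k)) (by abel) ?_
      rw [a1, a2, add_zero]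
  mul_antipode_lTensor_comul := by
    refine LinearMap.ext_on span_top ?_
    intro x hx
    simp only [Set.mem_insert_iff, Set.mem_singleton_iff] at hx
    rcases hx with rfl | rfl | rfl | rfl
    · simp [Algebra.TensorProduct.one_def, S1]
    · simp [comul_eq, counit_eq, Δh, εh, S1, Sh, two (k := k)]
    · simp [comul_eq, counit_eq, Δe, εe, S1, Se, two (k := k)]
    · simp only [LinearMap.comp_apply, comul_eq, counit_eq, map_mul, Δh, Δe, εh, εe, mul_add,
        add_mul, Algebra.TensorProduct.tmul_mul_tmul, mul_one, one_mul, map_add,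
        LinearMap.lTensor_tmul, LinearMap.mul'_apply, S1, Sh, Se, She, mul_zero, map_zero]
      have a1 := two (k := k) (h k * e k)
      have a2 := two (k := k) (e k * h k)
      refine Eq.trans (b := (h k * e k + h k * e k) + (e k * h k + e k * h k)) (by abel) ?_
      rw [a1, a2, add_zero]

lemma proj (g : U k) (hg : g * g = g) (hd : Δ g = g ⊗ₜ[k] 1 + 1 ⊗ₜ[k] g) (he : ε g = (0 : k)) :
    TwoSided k (1 + g) := by
  have a1 : g * (1 + g) = 0 := by rw [mul_add, mul_one, hg, two (k := k)]
  have a2 : (1 + g) * g = 0 := by rw [add_mul, one_mul, hg, two (k := k)]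
  obtain ⟨P, hP⟩ : ∃ P, P = 1 + g := ⟨_, rfl⟩
  have hD : comul (R := k) (1 + g) = 1 + (g ⊗ₜ[k] 1 + 1 ⊗ₜ[k] g) := by
    rw [comul_eq, map_add, map_one, hd]
  have b1 : P ⊗ₜ[k] P = 1 ⊗ₜ[k] P + g ⊗ₜ[k] P := by rw [← TensorProduct.add_tmul, ← hP]
  have b2 : P ⊗ₜ[k] P = P ⊗ₜ[k] 1 + P ⊗ₜ[k] g := by rw [← TensorProduct.tmul_add, ← hP]
  refine ⟨fun h0 => ?_, by rw [mul_add, mul_one, a2, add_zero], ?_⟩
  · have := congrArg (ε (k := k)) h0
    simp [he] at this
  rw [hD]
  rw [← hP] at a1 a2 ⊢
  simp only [mul_add, add_mul, Algebra.TensorProduct.tmul_mul_tmul, mul_one, one_mul, a1, a2,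
    TensorProduct.zero_tmul, TensorProduct.tmul_zero, zero_add, add_zero]
  exact ⟨⟨b1.symm, b1⟩, b2.symm, b2⟩

lemma e_ne : e k ≠ 0 := by
  intro h0
  let f : U k →ₐ[k] Matrix (Fin 2) (Fin 2) k := mkHom !![0, 0; 0, 1] !![0, 1; 0, 0]
    (by ext i j; fin_cases i <;> fin_cases j <;> simp [Matrix.mul_apply])
    (by ext i j; fin_cases i <;> fin_cases j <;> simp [Matrix.mul_apply])
    (by ext i j; fin_cases i <;> fin_cases j <;> simp [Matrix.mul_apply])
  have : f (e k) = !![0, 1; 0, 0] := mkHom_e ..
  rw [h0, map_zero] at this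
  simpa using congrFun (congrFun this 0) 1

theorem result : ∃ (k : Type) (_ : Field k) (A : Type) (_ : Ring A) (_ : HopfAlgebra k A),
    Module.Finite k A ∧ {P : A | TwoSided k P}.Infinite := by
  let k := AlgebraicClosure (ZMod 2)
  refine ⟨k, inferInstance, U k, inferInstance, inferInstance, ⟨?_⟩, ?_⟩
  · rw [← span_top]
    exact Submodule.fg_span (Set.toFinite _)
  · refine Set.infinite_of_injective_forall_mem (f := fun t : k => 1 + (h k + t • e k)) ?_ ?_
    · intro s t hst
      exact smul_left_injective k e_ne (add_left_cancel (add_left_cancel hst))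
    · intro t
      refine proj _ ?_ ?_ ?_
      · simp only [mul_add, add_mul, mul_smul_comm, smul_mul_assoc, hh, ee, eh, smul_zero,
          smul_add]
        have := two (k := k) (t • (h k * e k))
        rw [← sub_eq_zero, add_zero, ← this]
        abel
      · simp only [map_add, map_smul, Δh, Δe, TensorProduct.add_tmul, TensorProduct.tmul_add,
          smul_add, TensorProduct.smul_tmul', TensorProduct.tmul_smul]
        abel
      · simp [εh, εe]

end Pool.Agent.Results.MP_2a0e18_al.Full
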